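import Pool.Agent.KS6_76.SINF.Sharp

/-!
# Abelian closed subgroups of `S_∞`: isomorphism, embeddability and all relations in between

We call a closed subgroup of `S_∞` *thin* if it is abelian and pro-countable, its elements of finite
order are dense, and its open subgroups of finite index have trivial intersection.  We call it *slim*
if moreover it is topologically torsion (`g ^ (n!)` tends to `1` for every element `g`) and for every
prime `l` the orders of its elements of `l`-power order are bounded.

For every analytic equivalence relation `F` on a standard Borel space there is a single Borel map `r`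
to the slim closed subgroups of `S_∞` such that `r x ≅ r y` if `x F y`, and such that there is not even
a continuous injective homomorphism from `r x` to `r y` if not `x F y`; for every analytic quasi-order
there is such a map with closed embeddability of `r x` in `r y` in place of `r x ≅ r y`.  Hence, on
every class of closed subgroups of `S_∞` containing all slim ones, every relation which implies the
existence of a continuous injective homomorphism is hard for analytic equivalence relations and not
Borel reducible to graph isomorphism, if it is implied by topological isomorphism, and is hard for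
analytic quasi-orders, if it is implied by closed embeddability.

The groups are those of the library's `ProCountableComplete` and `BetweenIsoAndInjection`; the second
of these has the statement for the classes which contain all abelian topologically torsion groups.

Definitions: `Pool/Graph/R_seed8/Helper732/SInf/Defs.lean` (`ClosedSub`, `TopIso`, `IsProCountable`,
`IsInvariant`, `BorelReducible`, `IsAnalytic`, `AnalyticHard`, `Graphs`, `GraphIso`),
`Pool/Graph/R_seed8/Helper732/SInf/Hard.lean` (`TopIsoOn`),
`Pool/Graph/R_pool_sql_team_seeded_1acbe0a2/Y403/SI/Inj.lean` and `Quasi.lean` (`IsTopTorsion`,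
`ClosedEmb`, `QuasiOrderHard`), `Pool/Agent/KS6_76/SINF/Defs.lean` (`IsAbelian`, `TorsionDense`,
`FiniteSeparated`, `IsThin`, `ContInj`, `TopEmb`), `Pool/Agent/KS6_76/SINF/Sharp.lean`
(`PrimaryBounded`, `IsSlim`).
-/

set_option autoImplicit false

namespace Pool.Agent.Results.MP_52b1ec_lc.AbelianSandwich

open Pool.Agent.Helper732.SInf Pool.Agent.KS6_76.SINF
open Pool.Agent.Y403.SI (IsTopTorsion ClosedEmb QuasiOrderHard)

universe u

/-- **Q1 and Q2, for slim abelian groups and for all relations between isomorphism (closed
embeddability) and injectability.**
(1) For every analytic equivalence relation `F` on a standard Borel space there is a Borel map `r`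
to the slim closed subgroups of `S_∞` with `F x y → r x ≅ r y`, and with `F x y` whenever there is a
continuous injective homomorphism from `r x` to `r y`.
(2) For every analytic quasi-order `F` on a standard Borel space there is a Borel map `r` to the slim
closed subgroups of `S_∞` such that `r x` is topologically isomorphic to a closed subgroup of `r y` if
`F x y`, and with `F x y` whenever there is a continuous injective homomorphism from `r x` to `r y`.
(3) On every class `C` containing all slim groups, every relation which implies continuous
injectability is hard for analytic equivalence relations and not Borel reducible to graph isomorphism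
if it is implied by topological isomorphism, and is hard for analytic quasi-orders if it is implied by
closed embeddability.
(4) For instance topological bi-embeddability, and closed embeddability, of slim groups.
(5) Q1: the class of all abelian closed subgroups is Borel and invariant, and topological
isomorphism on it is hard for analytic equivalence relations and not Borel reducible to graph
isomorphism.
(6) Q2: the same for the class of pro-countable groups, and for the class of abelian pro-countable
groups. -/
theorem result :
    (∀ (X : Type u) [MeasurableSpace X] [StandardBorelSpace X] (F : X → X → Prop),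
      Equivalence F → IsAnalytic {p : X × X | F p.1 p.2} →
      ∃ r : X → ClosedSub, Measurable r ∧ (∀ x, IsSlim (r x)) ∧
        ∀ x y, (F x y → TopIso (r x) (r y)) ∧ (ContInj (r x) (r y) → F x y)) ∧
    (∀ (X : Type u) [MeasurableSpace X] [StandardBorelSpace X] (F : X → X → Prop),
      (∀ x, F x x) → (∀ x y z, F x y → F y z → F x z) → IsAnalytic {p : X × X | F p.1 p.2} →
      ∃ r : X → ClosedSub, Measurable r ∧ (∀ x, IsSlim (r x)) ∧
        ∀ x y, (F x y → ClosedEmb (r x) (r y)) ∧ (ContInj (r x) (r y) → F x y)) ∧
    (∀ C : Set ClosedSub, (∀ G, IsSlim G → G ∈ C) →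
      ∀ R : {G : ClosedSub // G ∈ C} → {G : ClosedSub // G ∈ C} → Prop,
        (∀ G H, R G H → ContInj G.1 H.1) →
        ((∀ G H, TopIso G.1 H.1 → R G H) →
          AnalyticHard.{u} R ∧ ¬ BorelReducible R GraphIso) ∧
        ((∀ G H, ClosedEmb G.1 H.1 → R G H) → QuasiOrderHard.{u} R)) ∧
    (AnalyticHard.{u} (fun G H : {G : ClosedSub // G ∈ {G | IsSlim G}} =>
        TopEmb G.1 H.1 ∧ TopEmb H.1 G.1) ∧
      ¬ BorelReducible (fun G H : {G : ClosedSub // G ∈ {G | IsSlim G}} =>
        TopEmb G.1 H.1 ∧ TopEmb H.1 G.1) GraphIso ∧
      QuasiOrderHard.{u} (fun G H : {G : ClosedSub // G ∈ {G | IsSlim G}} =>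
        ClosedEmb G.1 H.1)) ∧
    (MeasurableSet {G : ClosedSub | IsAbelian G} ∧ IsInvariant {G | IsAbelian G} ∧
      AnalyticHard.{u} (TopIsoOn {G | IsAbelian G}) ∧
      ¬ BorelReducible (TopIsoOn {G | IsAbelian G}) GraphIso) ∧
    ((AnalyticHard.{u} (TopIsoOn {G | IsProCountable G}) ∧
      ¬ BorelReducible (TopIsoOn {G | IsProCountable G}) GraphIso) ∧
    (AnalyticHard.{u} (TopIsoOn {G | IsAbelian G ∧ IsProCountable G}) ∧
      ¬ BorelReducible (TopIsoOn {G | IsAbelian G ∧ IsProCountable G}) GraphIso)) := by
  have h3 : ∀ C : Set ClosedSub, (∀ G, IsSlim G → G ∈ C) →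
      AnalyticHard.{u} (TopIsoOn C) ∧ ¬ BorelReducible (TopIsoOn C) GraphIso := fun C hC =>
    (slim_classes C hC (TopIsoOn C) (fun _ _ h => TopIso.contInj h)).1 (fun _ _ h => h)
  have h4 := (slim_classes.{u} {G | IsSlim G} (fun _ h => h)
    (fun G H => TopEmb G.1 H.1 ∧ TopEmb H.1 G.1) (fun _ _ h => TopEmb.contInj h.1)).1
    (fun _ _ h => ⟨TopIso.topEmb h, TopIso.topEmb (TopIso.symm' h)⟩)
  refine ⟨fun X _ _ F hF hFA => slim_reduction X F hF hFA,
    fun X _ _ F h1 h2 h3 => slim_quasi X F h1 h2 h3, fun C hC R hR => slim_classes C hC R hR,
    ⟨h4.1, h4.2, ?_⟩, ⟨measurableSet_isAbelian, isInvariant_isAbelian, ?_⟩, ?_, ?_⟩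
  · refine (slim_classes.{u} {G | IsSlim G} (fun _ h => h)
      (fun G H => ClosedEmb G.1 H.1) ?_).2 (fun _ _ h => h)
    rintro G H ⟨K, hK, φ, h1, -⟩
    refine ⟨(Subgroup.inclusion hK).comp φ.toMonoidHom, ?_, ?_⟩
    · exact (continuous_inclusion hK).comp h1
    · exact (Subgroup.inclusion_injective hK).comp φ.injective
  · exact h3 _ fun _ h => h.1.1
  · exact h3 _ fun _ h => h.1.2.1
  · exact h3 _ fun _ h => ⟨h.1.1, h.1.2.1⟩

end Pool.Agent.Results.MP_52b1ec_lc.AbelianSandwich
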